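import Pool.Agent.helper14.AV.Spec

set_option autoImplicit false

namespace Pool.Agent.helper14.AV

theorem FNL_seg {ι : Type} (A B : ι → ℝ × ℝ) (x : ι × Bool) :
    segment ℝ (st A B x) (fn A B x) = segment ℝ (A x.1) (B x.1) := by
  unfold st fn
  cases x.2
  · simp [segment_symm]
  · simp

theorem FNL_st {ι : Type} (A B : ι → ℝ × ℝ) (x : ι × Bool) :
    st A B x ∈ segment ℝ (A x.1) (B x.1) := by
  rw [← FNL_seg]
  exact left_mem_segment ℝ _ _

theorem FNL_fn {ι : Type} (A B : ι → ℝ × ℝ) (x : ι × Bool) :
    fn A B x ∈ segment ℝ (A x.1) (B x.1) := by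
  rw [← FNL_seg]
  exact right_mem_segment ℝ _ _

theorem FNL_ne {ι : Type} (A B : ι → ℝ × ℝ) (hAB : ∀ i, A i ≠ B i) (x : ι × Bool) :
    st A B x ≠ fn A B x := by
  unfold st fn
  cases x.2
  · simpa using (hAB x.1).symm
  · simpa using hAB x.1

/-- the function with values `st`, `fn` -/
noncomputable def FNL_v {ι : Type} (A B : ι → ℝ × ℝ) (g : ℕ → ι × Bool) (m : ℕ) : ℝ × ℝ :=
  if m % 2 = 0 then st A B (g (m / 2)) else fn A B (g (m / 2))

theorem FNL_v0 {ι : Type} (A B : ι → ℝ × ℝ) (g : ℕ → ι × Bool) (i : ℕ) :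
    FNL_v A B g (2 * i) = st A B (g i) := by
  unfold FNL_v
  have h1 : (2 * i) % 2 = 0 := by omega
  have h2 : (2 * i) / 2 = i := by omega
  rw [if_pos h1, h2]

theorem FNL_v1 {ι : Type} (A B : ι → ℝ × ℝ) (g : ℕ → ι × Bool) (i : ℕ) :
    FNL_v A B g (2 * i + 1) = fn A B (g i) := by
  unfold FNL_v
  have h1 : ¬ (2 * i + 1) % 2 = 0 := by omega
  have h2 : (2 * i + 1) / 2 = i := by omega
  rw [if_neg h1, h2]

theorem FNL_v2 {ι : Type} (A B : ι → ℝ × ℝ) (g : ℕ → ι × Bool) (i : ℕ) :
    FNL_v A B g (2 * i + 2) = st A B (g (i + 1)) := by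
  have : 2 * i + 2 = 2 * (i + 1) := by ring
  rw [this, FNL_v0]

theorem FNL (hEIN : EIN_stmt) : FNL_stmt := by
  intro n A B w k hk hnd hAB hd hc hPD
  rcases Nat.eq_zero_or_pos k with hk0 | hk0
  · subst hk0
    refine ⟨fun i => i.elim0, fun _ => 0, fun i => i.elim0, fun i => i.elim0, ⟨?_, ?_⟩, ?_⟩
    · intro i hi
      omega
    · intro i j _ hj
      omega
    · intro i hi
      omega
  · have hpos : 0 < w.length := by omega
    obtain ⟨g, hg⟩ : ∃ g : ℕ → Fin n × Bool, ∀ (i : ℕ) (h : i < w.length), g i = w[i] :=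
      ⟨fun i => w.getD i (w[0]), fun i h => List.getD_eq_getElem _ _ h⟩
    have hinj : ∀ i j, i < k → j < k → (g i).1 = (g j).1 → i = j := by
      intro i j hi hj h
      have hi' : i < w.length := by omega
      have hj' : j < w.length := by omega
      rw [hg i hi', hg j hj'] at h
      have h1 : (w.map Prod.fst)[i]'(by simpa using hi') = (w.map Prod.fst)[j]'(by simpa using hj') := by
        simpa using h
      exact (List.Nodup.getElem_inj_iff hnd).1 h1
    have hlen := (hEIN (Fin n × Bool) w).1
    have hed : ∀ (i : ℕ) (h : i + 1 < k) (h' : i < (edges w).length), (edges w)[i] = (g i, g (i + 1)) := by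
      intro i h h'
      rw [(hEIN (Fin n × Bool) w).2 i (by omega) h', hg i (by omega), hg (i + 1) (by omega)]
    have hmem : ∀ i, i + 1 < k → (g i, g (i + 1)) ∈ edges w := by
      intro i h
      have h' : i < (edges w).length := by omega
      rw [← hed i h h']
      exact List.getElem_mem h'
    have hpd : ∀ i j, i < j → j + 1 < k →
        Disjoint (Eg A B (g i, g (i + 1))) (Eg A B (g j, g (j + 1))) := by
      intro i j hij hj
      have h1 : i < (edges w).length := by omega
      have h2 : j < (edges w).length := by omega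
      have h3 := (List.pairwise_iff_getElem.1 hPD) i j h1 h2 hij
      rw [hed i (by omega) h1, hed j hj h2] at h3
      exact h3
    have hsame : ∀ i j x, i < k → j < k → x ∈ segment ℝ (A (g i).1) (B (g i).1) →
        x ∈ segment ℝ (A (g j).1) (B (g j).1) → i = j := by
      intro i j x hi hj h1 h2
      apply hinj i j hi hj
      by_contra hne
      exact Set.disjoint_left.1 (hd _ _ hne) h1 h2
    have hCE : ∀ i j x, i + 1 < k → j < k → x ∈ segment ℝ (fn A B (g i)) (st A B (g (i + 1))) →
        x ∈ segment ℝ (A (g j).1) (B (g j).1) →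
        (j = i ∧ x = fn A B (g i)) ∨ (j = i + 1 ∧ x = st A B (g (i + 1))) := by
      intro i j x hi hj h1 h2
      rw [← insert_endpoints_openSegment] at h1
      rcases h1 with h1 | h1 | h1
      · left
        refine ⟨?_, h1⟩
        apply (hsame i j x (by omega) hj ?_ h2).symm
        rw [h1]
        exact FNL_fn A B (g i)
      · right
        refine ⟨?_, h1⟩
        apply (hsame (i + 1) j x hi hj ?_ h2).symm
        rw [h1]
        exact FNL_st A B (g (i + 1))
      · exact absurd h2 (Set.disjoint_left.1 (hc _ (hmem i hi) (g j).1) h1)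
    refine ⟨fun i => (g i).1, FNL_v A B g, ?_, ?_, ⟨?_, ?_⟩, ?_⟩
    · intro i j h
      exact Fin.ext (hinj i j i.2 j.2 h)
    · intro i
      rw [FNL_v0, FNL_v1]
      unfold st fn
      cases h : (g (i : ℕ)).2
      · right
        simp
      · left
        simp
    · intro a ha
      rcases Nat.even_or_odd' a with ⟨i, h | h⟩
      · subst h
        rw [FNL_v0, FNL_v1]
        exact FNL_ne A B hAB (g i)
      · subst h
        rw [FNL_v1, FNL_v2]
        intro he
        have h1 := FNL_fn A B (g i)
        have h2 := FNL_st A B (g (i + 1))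
        rw [← he] at h2
        have := hsame i (i + 1) _ (by omega) (by omega) h1 h2
        omega
    · intro a b hab hb x hx hx'
      rcases Nat.even_or_odd' a with ⟨i, h | h⟩
      · rcases Nat.even_or_odd' b with ⟨j, h' | h'⟩
        · subst h h'
          rw [FNL_v0, FNL_v1, FNL_seg] at hx hx'
          have := hsame i j x (by omega) (by omega) hx hx'
          omega
        · subst h h'
          rw [FNL_v0, FNL_v1, FNL_seg] at hx
          rw [FNL_v1, FNL_v2] at hx'
          rcases hCE j i x (by omega) (by omega) hx' hx with ⟨h1, h2⟩ | ⟨h1, h2⟩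
          · subst h1
            refine ⟨rfl, ?_⟩
            rw [FNL_v1]
            exact h2
          · omega
      · rcases Nat.even_or_odd' b with ⟨j, h' | h'⟩
        · subst h h'
          rw [FNL_v1, FNL_v2] at hx
          rw [FNL_v0, FNL_v1, FNL_seg] at hx'
          rcases hCE i j x (by omega) (by omega) hx hx' with ⟨h1, h2⟩ | ⟨h1, h2⟩
          · omega
          · subst h1
            refine ⟨by ring, ?_⟩
            rw [FNL_v0]
            exact h2
        · subst h h'
          rw [FNL_v1, FNL_v2] at hx hx'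
          exact absurd hx' (Set.disjoint_left.1 (hpd i j (by omega) (by omega)) hx)
    · intro i hi j
      rw [FNL_v1, FNL_v2]
      exact hc _ (hmem i hi) j

end Pool.Agent.helper14.AV
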